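import Pool.Agent.helper63.NF.Cert

/-!
Generated: table E6c.
-/

namespace Pool.Agent.helper14.NR.E6c

open Pool.Agent.helper63.NF

def tab : TD where
  strip := false
  bm := none
  ec := 154618822656
  bc := 824633720832
  H := [[[48904888384, 35362634624, -1777679296, -19101802304], [396622470208, 242108862272, 457364348736], [-17227363584, 12543695527040], [58887361208256]], [[2418684480, -16135912704, 3416398016], [-69898427904, -88692535808], [500192028160]], [[-5150150208, 1784375744], [-4281550976]], [[881576256]], [[-62242880]]]
  pol := none
  a := [[[88715362304, 99023519744, -365610598400, -1183225675776], [-1528793137152, -2579266732032]], [[43431952384, 9274654720, -83716407296, 44785467392], [-477669883904, -924723970048]], [[59574321152, -9741533184, -271175122944, 289774764032], [-138152902656, -400864968704]], [[99429056512, -41200386048, -577081901056, 847791652864], [-147285213184, -536611127296]], [[130617245696, 38857605120, -712685518848, -779557732352], [274507497472, -1184388546560]], [[116323844096, 31536316416, -345069977600, -739877781504], [395502223360, -678898827264]]]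
  j := [-3161095929856, 824633720832, 4123168604160, 7559142440960, 9208409882624, 8521215115264]
  c := [879662989312, 879662989312, 659814350848, 549755813888, 439697276928, 329907175424]
  M := [[[[1137619042304, 180127203328, 134231752704], [454690013184, 2914106540032], [12631077683200]], [[423669465088, 69006327808], [6056840396800]], [[405294415872, -138480386048], [-5142577545216]], [[-758422241280]], [[501832810496]], [[-214615916544]]], [[[1132926926848, 160063750144, 139028070400], [903054491648]], [[104934998016, 8009940992], [668663152640]], [[-5736759296]], [[250740736]]], [[[1133162790912, 148329267200, 123620491264], [868146610176]], [[103995473920, 10368778240], [632089280512]], [[-5313855488]], [[204341248]]], [[[1133649002496, 143132524544, 130478637056], [816016982016]], [[101525159936, 11219697664], [641553727488]], [[-4391043072]], [[109838336]]], [[[1134665072640, 142626586624, 125130571776], [814877900800]], [[100200284160, 10660675584], [644470341632]], [[-3810656256]], [[34996224]]], [[[1132120047616, 152409800704, 127134203904], [765572546560]], [[102775652352, 7404191744], [664372183040]], [[-4678287360]], [[120913920]]]]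
  l0 := [[[3736721079808, 5608179520, -190820373760], [3230005220096, -2754849761984], [2058313585024]], [[-140979850176, -677198321024, 82124910208], [-20787556339008, 950642186560], [-39449413102144]], [[-967867821120, 1433974558976], [11977159466304]], [[1624824216640, -1355013057024], [-18970309133312]], [[-2310738159872, 892819247680], [12579816266944]], [[1887482153472]], [[-919863295872]], [[310264894272]]]
  q0 := [[463842910400, 638604043584, -57130754752, 15678103488], [3219568839808, 3959776224128, -2129755943168], [-4602823179072, 6051436019392], [117335412216384]]
  t := [[[1677747945472, 1042950324224, 1253695619072, -2260335853568], [1784775311360, 7685914165248]], [[986399703040, 731760558080, 1482427924480, 1239986667520], [3915080400896, 7873751023616]], [[886018801664, 565905588224, 904380284928, 2081717354496], [3318597419008, 6514153684992]], [[803060449280, 239548760064, -188222472192, 3685475614720], [1609248473088, 1530378846208]], [[826702692352, 325077696512, -1441072611328, -1867659673600], [1738164207616, -5027563634688]], [[1052205842432, 932036345856, -1085614587904, -6289800298496], [7214613659648, 10848870989824]]]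
  y := [17543867662336, 14565307842560, 9383429799936, 5719822696448, 3525094408192, 2221571833856]
  sc := [0, 0, 0, 0, 0, 0]
  L := [(0, 2), (0, 3), (1, 1), (1, 2), (2, 0), (2, 1), (3, 0)]
  Lt := [(0, 2), (0, 3), (1, 1)]
  far := 1
  x2 := 10775213113344
  B1 := 659706347520
  C2 := 1327712154624
  f1 := 769658138624
  f2 := 0
  f3 := 0
  is1 := 8796093022208
  s1 := 137438953472

end Pool.Agent.helper14.NR.E6c
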